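import Pool.Agent.H.MP_7399ce_lc.B

set_option autoImplicit false

namespace Pool.Agent.Results.MP_7399ce_lc.Hard
open Pool.Agent.Lib.CX Pool.Agent.H.MP_7399ce_lc

theorem result : NPHard fun a : {a : Gr // a.G.Colorable 2} => Good a.1.G :=
  NPHard.of_nae (fun φ => ⟨gr φ, gr_bip φ⟩) (pt_gr.subtype _) red

end Pool.Agent.Results.MP_7399ce_lc.Hard
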